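import Pool.Agent.Y669.EX.AndOr
import Pool.Agent.H654R2.MED.Defs
import Pool.Agent.H623R2.MixT1

/-!
# M-ETERNAL DOMINATION is decidable in exponential time
-/

set_option autoImplicit false

namespace Pool.Agent.Y669.EX.Med

open Turing Pool.Agent.NPC Pool.Agent.NPC.Mix.T1 Pool.Agent.H654R2.MED Pool.Agent.Y669.EX

/-! ### Losing configurations -/

section los

variable {V : Type} [DecidableEq V] (G : SimpleGraph V)

/-- The configurations from which the guards lose. -/
inductive Los : Finset V → Prop
  | mk (C : Finset V) (v : V) (h : ∀ C' : Finset V, v ∈ C' → Traversable G C C' → Los C') : Los C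

variable {G}

theorem Traversable.card_eq {C₁ C₂ : Finset V} (h : Traversable G C₁ C₂) : C₁.card = C₂.card := by
  obtain ⟨f, _⟩ := h
  have := Fintype.card_congr f
  simpa using this

theorem not_los_of_mem {k : ℕ} {F : Set (Finset V)} (hF : IsStrategy G k F) {C : Finset V}
    (h : Los G C) : C ∉ F := by
  induction h with
  | mk C v h ih =>
    intro hC
    obtain ⟨C', hC', hv, h1⟩ := hF.2.2 C hC v
    refine ih C' hv ?_ hC'
    rcases h1 with rfl | h1
    · exact ⟨Equiv.refl _, fun u => Or.inl rfl⟩
    · exact h1

theorem strategy_iff (k : ℕ) : (∃ F, IsStrategy G k F) ↔ ∃ C : Finset V, C.card = k ∧ ¬ Los G C := by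
  constructor
  · rintro ⟨F, hF⟩
    obtain ⟨C, hC⟩ := hF.1
    exact ⟨C, hF.2.1 C hC, fun h => not_los_of_mem hF h hC⟩
  · rintro ⟨C, hC, hL⟩
    refine ⟨{D | D.card = k ∧ ¬ Los G D}, ⟨C, hC, hL⟩, fun D hD => hD.1, ?_⟩
    rintro D ⟨hD, hDL⟩ v
    by_contra hcon
    push Not at hcon
    refine hDL (Los.mk D v fun C' hv hT => ?_)
    by_contra hn
    exact (hcon C' ⟨(Traversable.card_eq hT).symm.trans hD, hn⟩ hv).2 hT

/-- moving the guards of a list one after the other -/
def Fol (G : SimpleGraph V) : List V → Finset V → Finset V → Prop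
  | [], D, D' => D' = D
  | g :: r, D, D' => ∃ t, (t = g ∨ G.Adj g t) ∧ t ∉ D ∧ Fol G r (insert t D) D'

theorem fol_iff {l : List V} (hl : l.Nodup) (D D' : Finset V) : Fol G l D D' ↔
    ∃ f : V → V, Set.InjOn f {x | x ∈ l} ∧ (∀ g ∈ l, (f g = g ∨ G.Adj g (f g)) ∧ f g ∉ D) ∧
      D' = D ∪ l.toFinset.image f := by
  induction l generalizing D with
  | nil =>
    constructor
    · intro h
      exact ⟨id, by simp, by simp, by simpa [Fol] using h⟩
    · rintro ⟨f, _, _, h⟩
      simpa [Fol] using h
  | cons g r ih =>
    rw [List.nodup_cons] at hl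
    constructor
    · rintro ⟨t, h1, h2, h3⟩
      obtain ⟨f, hf1, hf2, rfl⟩ := (ih hl.2 _).1 h3
      have hne : ∀ x ∈ r, x ≠ g := fun x hx h => hl.1 (h ▸ hx)
      refine ⟨Function.update f g t, ?_, ?_, ?_⟩
      · intro x hx y hy hxy
        simp only [List.mem_cons, Set.mem_setOf_eq] at hx hy
        rcases hx with rfl | hx <;> rcases hy with rfl | hy
        · rfl
        · rw [Function.update_self, Function.update_of_ne (hne y hy)] at hxy
          exact absurd (hxy ▸ Finset.mem_insert_self _ _) (hf2 y hy).2
        · rw [Function.update_self, Function.update_of_ne (hne x hx)] at hxy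
          exact absurd (hxy ▸ Finset.mem_insert_self _ _) (hf2 x hx).2
        · rw [Function.update_of_ne (hne x hx), Function.update_of_ne (hne y hy)] at hxy
          exact hf1 hx hy hxy
      · intro x hx
        rw [List.mem_cons] at hx
        rcases hx with rfl | hx
        · rw [Function.update_self]
          exact ⟨h1, h2⟩
        · rw [Function.update_of_ne (hne x hx)]
          exact ⟨(hf2 x hx).1, fun h => (hf2 x hx).2 (Finset.mem_insert_of_mem h)⟩
      · ext y
        simp only [Finset.mem_union, Finset.mem_insert, Finset.mem_image, List.mem_toFinset,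
          List.mem_cons]
        constructor
        · rintro ((rfl | h) | ⟨x, hx, rfl⟩)
          · exact Or.inr ⟨g, Or.inl rfl, Function.update_self ..⟩
          · exact Or.inl h
          · exact Or.inr ⟨x, Or.inr hx, Function.update_of_ne (hne x hx) ..⟩
        · rintro (h | ⟨x, rfl | hx, rfl⟩)
          · exact Or.inl (Or.inr h)
          · rw [Function.update_self]
            exact Or.inl (Or.inl rfl)
          · rw [Function.update_of_ne (hne x hx)]
            exact Or.inr ⟨x, hx, rfl⟩
    · rintro ⟨f, hf1, hf2, rfl⟩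
      have hg := hf2 g (by simp)
      refine ⟨f g, hg.1, hg.2, (ih hl.2 _).2 ⟨f, fun x hx y hy h => hf1 (by
        simp only [Set.mem_setOf_eq, List.mem_cons] at hx ⊢
        exact Or.inr hx) (by
        simp only [Set.mem_setOf_eq, List.mem_cons] at hy ⊢
        exact Or.inr hy) h, fun x hx => ?_, ?_⟩⟩
      · refine ⟨(hf2 x (by simp [hx])).1, fun h => ?_⟩
        rw [Finset.mem_insert] at h
        rcases h with h | h
        · have := hf1 (by simp [hx]) (by simp) h
          exact hl.1 (this ▸ hx)
        · exact (hf2 x (by simp [hx])).2 h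
      · ext y
        simp only [Finset.mem_union, Finset.mem_insert, Finset.mem_image, List.mem_toFinset,
          List.mem_cons]
        constructor
        · rintro (h | ⟨x, rfl | hx, rfl⟩)
          · exact Or.inl (Or.inr h)
          · exact Or.inl (Or.inl rfl)
          · exact Or.inr ⟨x, hx, rfl⟩
        · rintro ((rfl | h) | ⟨x, hx, rfl⟩)
          · exact Or.inr ⟨g, Or.inl rfl, rfl⟩
          · exact Or.inl h
          · exact Or.inr ⟨x, Or.inr hx, rfl⟩

theorem traversable_iff {l : List V} (hl : l.Nodup) (C' : Finset V) :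
    Traversable G l.toFinset C' ↔ Fol G l ∅ C' := by
  rw [fol_iff hl]
  constructor
  · rintro ⟨f, hf⟩
    refine ⟨fun x => if h : x ∈ l.toFinset then (f ⟨x, h⟩ : V) else x, ?_, ?_, ?_⟩
    · intro x hx y hy hxy
      have hx' : x ∈ l.toFinset := List.mem_toFinset.2 hx
      have hy' : y ∈ l.toFinset := List.mem_toFinset.2 hy
      simp only [hx', hy', dif_pos] at hxy
      have := f.injective (Subtype.ext hxy)
      exact congrArg Subtype.val this
    · intro g hg
      have hg' : g ∈ l.toFinset := List.mem_toFinset.2 hg
      simp only [hg', dif_pos]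
      exact ⟨hf ⟨g, hg'⟩, by simp⟩
    · ext y
      simp only [Finset.empty_union, Finset.mem_image]
      constructor
      · intro hy
        obtain ⟨⟨x, hx⟩, hxy⟩ := f.surjective ⟨y, hy⟩
        refine ⟨x, hx, ?_⟩
        rw [dif_pos hx, hxy]
      · rintro ⟨x, hx, rfl⟩
        rw [dif_pos hx]
        exact (f ⟨x, hx⟩).2
  · rintro ⟨f, hf1, hf2, rfl⟩
    rw [Finset.empty_union]
    refine ⟨Equiv.ofBijective (fun x => ⟨f x.1, Finset.mem_image_of_mem f x.2⟩) ⟨?_, ?_⟩, ?_⟩
    · intro x y hxy
      have h := congrArg Subtype.val hxy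
      exact Subtype.ext (hf1 (List.mem_toFinset.1 x.2) (List.mem_toFinset.1 y.2) h)
    · rintro ⟨y, hy⟩
      obtain ⟨x, hx, rfl⟩ := Finset.mem_image.1 hy
      exact ⟨⟨x, hx⟩, rfl⟩
    · intro u
      exact (hf2 u.1 (List.mem_toFinset.1 u.2)).1

end los

theorem gammaM_le_iff {n : ℕ} (G : SimpleGraph (Fin n)) (k : ℕ) :
    gammaM G ≤ k ↔ ∃ C : Finset (Fin n), C.card ≤ k ∧ ¬ Los G C := by
  have hne : ({k | ∃ F, IsStrategy G k F} : Set ℕ).Nonempty := by
    refine ⟨(Finset.univ : Finset (Fin n)).card, {Finset.univ}, ⟨_, rfl⟩, ?_, ?_⟩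
    · rintro C rfl
      rfl
    · rintro C rfl v
      exact ⟨_, rfl, Finset.mem_univ v, Or.inl rfl⟩
  constructor
  · intro h
    have hm : ∃ F, IsStrategy G (gammaM G) F := Nat.sInf_mem hne
    obtain ⟨C, h1, h2⟩ := (strategy_iff _).1 hm
    exact ⟨C, h1 ▸ h, h2⟩
  · rintro ⟨C, h1, h2⟩
    have hm : ∃ F, IsStrategy G C.card F := (strategy_iff _).2 ⟨C, rfl, h2⟩
    exact (Nat.sInf_le hm).trans h1

/-! ### The alternating graph -/

/-- instances -/
abbrev A : Type := List (List Bool) × ℕ

/-- states: a tag, a set, an attacked vertex, the guards that still have to move -/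
abbrev St : Type := ℕ × (List Bool × (ℕ × List ℕ))

/-- the list of the elements of a set -/
def gl (D : List Bool) : List ℕ := (List.range D.length).filter (fun i => D.getD i false)

/-- adding an element to a set -/
def ins (D : List Bool) (t : ℕ) : List Bool :=
  (List.range D.length).map (fun x => decide (x = t) || D.getD x false)

/-- the existential states -/
def ex (_ : A) (s : St) : Bool := decide (s.1 = 1)

/-- the moves of a guard -/
def tg (M : List (List Bool)) (D : List Bool) (g : ℕ) : List ℕ :=
  (List.range M.length).filter (fun t => (decide (t = g) || ent M g t) && !(D.getD t false))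

/-- the successors of a state with tag 2 -/
def suc2 (a : A) (s : St) : List St :=
  if s.2.2.2 = [] then (if s.2.1.getD s.2.2.1 false then [(1, s.2.1, 0, [])] else [])
  else (tg a.1 s.2.1 (s.2.2.2.head?.getD 0)).map (fun t => (2, ins s.2.1 t, s.2.2.1, s.2.2.2.tail))

/-- the successors of a state with tag 0 -/
def suc0 (a : A) (s : St) : List St :=
  if s.2.1.length < a.1.length then [(0, s.2.1 ++ [false], 0, []), (0, s.2.1 ++ [true], 0, [])]
  else if a.2 < (gl s.2.1).length then [] else [(1, s.2.1, 0, [])]

/-- the code of the empty set -/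
def emp (a : A) : List Bool := (List.range a.1.length).map (fun _ => false)

/-- the successors -/
def suc (a : A) (s : St) : List St :=
  if s.1 = 0 then suc0 a s
  else if s.1 = 1 then (List.range a.1.length).map (fun v => (2, emp a, v, gl s.2.1))
  else suc2 a s

section sem

variable {n : ℕ}

/-- the code of a set -/
def code (D : Finset (Fin n)) : List Bool := List.ofFn (fun i => decide (i ∈ D))

theorem length_code (D : Finset (Fin n)) : (code D).length = n := by simp [code]

theorem getD_code (D : Finset (Fin n)) (i : Fin n) : (code D).getD i false = decide (i ∈ D) := by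
  simp [code]

theorem gl_code (D : Finset (Fin n)) :
    gl (code D) = ((List.finRange n).filter (fun i => decide (i ∈ D))).map Fin.val := by
  unfold gl
  rw [length_code, ← List.map_coe_finRange_eq_range, List.filter_map]
  congr 1
  refine List.filter_congr fun i _ => ?_
  simp only [Function.comp]
  exact getD_code D i

theorem nodup_el (D : Finset (Fin n)) :
    ((List.finRange n).filter (fun i => decide (i ∈ D))).Nodup :=
  (List.nodup_finRange n).filter _

theorem toFinset_el (D : Finset (Fin n)) :
    ((List.finRange n).filter (fun i => decide (i ∈ D))).toFinset = D := by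
  ext i
  simp

theorem length_gl (D : Finset (Fin n)) : (gl (code D)).length = D.card := by
  rw [gl_code, List.length_map, ← List.toFinset_card_of_nodup (nodup_el D), toFinset_el]

theorem ins_code (D : Finset (Fin n)) (t : Fin n) : ins (code D) t = code (insert t D) := by
  unfold ins
  rw [length_code]
  apply List.ext_getElem
  · simp [length_code]
  · intro i h1 h2
    have hi : i < n := by simpa using h1
    rw [List.getElem_map, List.getElem_range]
    have e1 := getD_code D ⟨i, hi⟩
    simp only at e1
    rw [e1]
    simp only [code, List.getElem_ofFn, Finset.mem_insert, Fin.ext_iff]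
    rw [Bool.eq_iff_iff]
    simp

theorem mem_tg {M : List (List Bool)} {D : Finset (Fin M.length)} {g t : ℕ} (hg : g < M.length) :
    t ∈ tg M (code D) g ↔ ∃ ht : t < M.length, ((⟨t, ht⟩ : Fin M.length) = ⟨g, hg⟩ ∨
      ent M g t = true) ∧ (⟨t, ht⟩ : Fin M.length) ∉ D := by
  unfold tg
  rw [List.mem_filter, List.mem_range]
  constructor
  · rintro ⟨ht, h⟩
    have e1 := getD_code D ⟨t, ht⟩
    simp only at e1
    rw [e1] at h
    simp only [Bool.and_eq_true, Bool.or_eq_true, decide_eq_true_eq, Bool.not_eq_true',
      decide_eq_false_iff_not] at h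
    exact ⟨ht, h.1.imp (fun h => Fin.ext h) id, h.2⟩
  · rintro ⟨ht, h1, h2⟩
    have e1 := getD_code D ⟨t, ht⟩
    simp only at e1
    refine ⟨ht, ?_⟩
    rw [e1]
    simp only [Bool.and_eq_true, Bool.or_eq_true, decide_eq_true_eq, Bool.not_eq_true',
      decide_eq_false_iff_not]
    exact ⟨h1.imp (fun h => congrArg Fin.val h) id, h2⟩

theorem adj_grOf {M : List (List Bool)} (hM : goodMat M = true) (i j : Fin M.length) :
    (grOf M).Adj i j ↔ ent M i j = true := by
  rw [goodMat_iff] at hM
  constructor
  · rintro ⟨_, h, _⟩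
    exact h
  · intro h
    refine ⟨?_, h, ?_⟩
    · rintro rfl
      rw [(hM.2 i i.2).1] at h
      cases h
    · rw [← (hM.2 i i.2).2 j j.2]
      exact h

variable {M : List (List Bool)} {k : ℕ}

theorem emp_code : emp (M, k) = code (∅ : Finset (Fin M.length)) := by
  unfold emp code
  apply List.ext_getElem
  · simp
  · intro i h1 h2
    simp

theorem code_of_length {C : List Bool} (h : C.length = n) :
    C = code (Finset.univ.filter (fun i : Fin n => C.getD i false = true)) := by
  apply List.ext_getElem
  · simp [code, h]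
  · intro i h1 h2
    simp only [code, List.getElem_ofFn, Finset.mem_filter, Finset.mem_univ, true_and]
    rw [List.getD_eq_getElem _ _ h1]
    simp

theorem code_inj {D E : Finset (Fin n)} (h : code D = code E) : D = E := by
  ext i
  have h1 := getD_code D i
  rw [h, getD_code E i] at h1
  simpa using h1.symm

/-- From acceptance to losing positions. -/
theorem sound (hM : goodMat M = true) {s : St} (h : Acc ex suc (M, k) s) :
    (∀ D : Finset (Fin M.length), s.1 = 1 → s.2.1 = code D → Los (grOf M) D) ∧
    (∀ (D : Finset (Fin M.length)) (v : Fin M.length) (l : List (Fin M.length)), s.1 = 2 →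
      s.2.1 = code D → s.2.2.1 = v → s.2.2.2 = l.map Fin.val →
      ∀ D', Fol (grOf M) l D D' → v ∈ D' → Los (grOf M) D') ∧
    (s.1 = 0 → ∀ D : Finset (Fin M.length), s.2.1 <+: code D →
      D.card ≤ k → Los (grOf M) D) := by
  induction h with
  | @some s s' h hs h' ih =>
    have h1 : s.1 = 1 := by simpa [ex] using h
    refine ⟨fun D _ hD => ?_, fun D v l h2 => by omega, fun h0 => by omega⟩
    simp only [suc, h1, one_ne_zero, if_false, if_true, List.mem_map, List.mem_range] at hs
    obtain ⟨v, hv, rfl⟩ := hs
    refine Los.mk D ⟨v, hv⟩ fun C' hvC hT => ?_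
    have hT' : Traversable (grOf M)
        ((List.finRange M.length).filter (fun i => decide (i ∈ D))).toFinset C' := by
      rwa [toFinset_el]
    rw [traversable_iff (nodup_el D)] at hT'
    exact ih.2.1 ∅ ⟨v, hv⟩ _ rfl emp_code rfl (by rw [hD, gl_code]) C' hT' hvC
  | @all s h h' ih =>
    have h1 : s.1 ≠ 1 := by simpa [ex] using h
    refine ⟨fun D h2 => absurd h2 h1, ?_, ?_⟩
    · intro D v l h2 hD hv hl D' hF hvD
      have hsuc : suc (M, k) s = suc2 (M, k) s := by simp [suc, h2]
      rw [hsuc] at ih
      cases l with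
      | nil =>
        have hF' : D' = D := hF
        subst hF'
        have hr : s.2.2.2 = [] := by rw [hl]; rfl
        have hg : s.2.1.getD s.2.2.1 false = true := by
          rw [hD, hv, getD_code]
          simpa using hvD
        have hm : ((1, s.2.1, 0, []) : St) ∈ suc2 (M, k) s := by
          unfold suc2
          rw [if_pos hr, if_pos hg]
          simp
        exact (ih _ hm).1 D' rfl hD
      | cons g r =>
        obtain ⟨t, ht1, ht2, hF'⟩ := hF
        have hr : s.2.2.2 ≠ [] := by rw [hl]; simp
        have hm : ((2, ins s.2.1 t, s.2.2.1, s.2.2.2.tail) : St) ∈ suc2 (M, k) s := by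
          unfold suc2
          rw [if_neg hr, List.mem_map]
          refine ⟨t, ?_, rfl⟩
          rw [hl, hD]
          simp only [List.map_cons, List.head?_cons, Option.getD_some]
          rw [mem_tg g.2]
          exact ⟨t.2, ht1.imp (fun h => h) (fun h => (adj_grOf hM _ _).1 h), ht2⟩
        exact (ih _ hm).2.1 (insert t D) v r rfl (by rw [hD, ins_code]) hv
          (by rw [hl]; rfl) D' hF' hvD
    · intro h0 D hD hk
      have hsuc : suc (M, k) s = suc0 (M, k) s := by simp [suc, h0]
      rw [hsuc] at ih
      by_cases hlt : s.2.1.length < M.length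
      · obtain ⟨u, hu⟩ := hD
        cases u with
        | nil =>
          have := congrArg List.length hu
          rw [List.append_nil, length_code] at this
          omega
        | cons b u =>
          have hm : ((0, s.2.1 ++ [b], 0, []) : St) ∈ suc0 (M, k) s := by
            unfold suc0
            rw [if_pos hlt]
            cases b <;> simp
          exact (ih _ hm).2.2 rfl D ⟨u, by simpa using hu⟩ hk
      · have he : s.2.1 = code D := by
          refine List.IsPrefix.eq_of_length_le hD ?_
          rw [length_code]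
          omega
        have hm : ((1, s.2.1, 0, []) : St) ∈ suc0 (M, k) s := by
          unfold suc0
          rw [if_neg hlt, he, length_gl, if_neg (by simpa using hk)]
          simp
        exact (ih _ hm).1 D rfl he

/-- The states with tag 2 are accepting if all the configurations that can be reached lose. -/
theorem complete2 (hM : goodMat M = true) (v : Fin M.length) : ∀ (l : List (Fin M.length))
    (D : Finset (Fin M.length)),
    (∀ D', Fol (grOf M) l D D' → v ∈ D' → Acc ex suc (M, k) (1, code D', 0, [])) →
    Acc ex suc (M, k) (2, code D, v, l.map Fin.val)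
  | [], D, h => by
    refine Acc.all rfl fun s' hs' => ?_
    simp only [suc, suc2, List.map_nil] at hs'
    simp only [OfNat.ofNat_ne_zero, OfNat.ofNat_ne_one, if_false, if_true] at hs'
    rw [getD_code] at hs'
    by_cases hv : v ∈ D
    · rw [if_pos (by simpa using hv), List.mem_singleton] at hs'
      subst hs'
      exact h D rfl hv
    · rw [if_neg (by simpa using hv)] at hs'
      simp at hs'
  | g :: r, D, h => by
    refine Acc.all rfl fun s' hs' => ?_
    have hs2 : s' ∈ suc2 (M, k) (2, code D, v, (g :: r).map Fin.val) := hs'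
    unfold suc2 at hs2
    simp only [List.map_cons, reduceCtorEq, if_false, List.head?_cons, Option.getD_some,
      List.tail_cons, List.mem_map] at hs2
    obtain ⟨t, ht, rfl⟩ := hs2
    rw [mem_tg g.2] at ht
    obtain ⟨ht0, ht1, ht2⟩ := ht
    have e : ins (code D) t = code (insert (⟨t, ht0⟩ : Fin M.length) D) := ins_code D ⟨t, ht0⟩
    rw [e]
    exact complete2 hM v r _ fun D' hF hv => h D' ⟨⟨t, ht0⟩,
      ht1.imp (fun h => h) (fun h => (adj_grOf hM _ _).2 h), ht2, hF⟩ hv

theorem complete1 (hM : goodMat M = true) {D : Finset (Fin M.length)} (h : Los (grOf M) D) :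
    Acc ex suc (M, k) (1, code D, 0, []) := by
  induction h with
  | mk C v h ih =>
    refine Acc.some (s' := (2, emp (M, k), v, gl (code C))) rfl ?_ ?_
    · simp only [suc, one_ne_zero, if_false, if_true, List.mem_map, List.mem_range]
      exact ⟨v, v.2, rfl⟩
    · rw [emp_code, gl_code]
      refine complete2 hM v _ _ fun D' hF hv => ?_
      have hT := (traversable_iff (nodup_el C) D').2 hF
      rw [toFinset_el] at hT
      exact ih D' hv hT

theorem complete0 (hM : goodMat M = true)
    (h : ∀ D : Finset (Fin M.length), D.card ≤ k → Los (grOf M) D) : ∀ (j : ℕ) (C : List Bool),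
    C.length + j = M.length → Acc ex suc (M, k) (0, C, 0, [])
  | 0, C, hC => by
    refine Acc.all rfl fun s' hs' => ?_
    have hs2 : s' ∈ suc0 (M, k) (0, C, 0, []) := hs'
    unfold suc0 at hs2
    rw [if_neg (by simp only; omega)] at hs2
    split_ifs at hs2 with hk
    · simp at hs2
    · rw [List.mem_singleton] at hs2
      subst hs2
      have e := code_of_length (n := M.length) (C := C) (by omega)
      rw [e]
      refine complete1 hM (h _ ?_)
      rw [e, length_gl] at hk
      simpa using hk
  | j + 1, C, hC => by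
    refine Acc.all rfl fun s' hs' => ?_
    have hs2 : s' ∈ suc0 (M, k) (0, C, 0, []) := hs'
    unfold suc0 at hs2
    rw [if_pos (by simp only; omega)] at hs2
    simp only [List.mem_cons, List.not_mem_nil, or_false] at hs2
    rcases hs2 with rfl | rfl
    · exact complete0 hM h j _ (by simp; omega)
    · exact complete0 hM h j _ (by simp; omega)

/-- The correctness of the alternating graph. -/
theorem main_iff (p : A) : MED p ↔ goodMat p.1 = true ∧ ¬ Acc ex suc p (0, [], 0, []) := by
  obtain ⟨M, k⟩ := p
  have key : ∀ hM : goodMat M = true,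
      (gammaM (grOf M) ≤ k ↔ ¬ Acc ex suc (M, k) (0, [], 0, [])) := by
    intro hM
    rw [gammaM_le_iff, ← not_iff_not, not_not]
    push Not
    constructor
    · intro h
      exact complete0 hM h M.length [] (by simp)
    · intro h D hD
      exact (sound hM h).2.2 rfl D List.nil_prefix hD
  constructor
  · rintro ⟨n, G, hG, h⟩
    have hG' : R671.adjMatrix G = M := hG
    subst hG'
    have hg := goodMat_adjMatrix G
    refine ⟨hg, (key hg).1 ?_⟩
    have h1 := adjMatrix_grOf hg
    have key2 : ∀ (m : ℕ) (e : m = n) (H : SimpleGraph (Fin m)),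
        R671.adjMatrix H = R671.adjMatrix G → gammaM H ≤ k := by
      rintro m rfl H hH
      rwa [R671.adjMatrix_inj hH]
    exact key2 _ (adjMatrix_length G) _ h1
  · rintro ⟨h1, h2⟩
    exact ⟨_, grOf M, adjMatrix_grOf h1, (key h1).2 h2⟩

end sem

/-! ### Sizes and polynomial time -/

/-- the length of the codes of the states -/
def mA (a : A) : ℕ := (10 * sz a + 20) * (10 * sz a + 20)

theorem mA_upoly : UPoly mA := by
  have h : UPoly (fun a : A => 10 * sz a + 20) :=
    UPoly.add (UPoly.mul (UPoly.const 10) ((UPoly.length (NPC.Med.poly_bits (α := A))).congr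
      fun a => by beta_reduce; rw [bits_length])) (UPoly.const 20)
  exact UPoly.mul h h

/-- the states which occur -/
def ok (a : A) (s : St) : Prop :=
  s.1 ≤ 2 ∧ s.2.1.length ≤ a.1.length ∧ s.2.2.1 ≤ a.1.length ∧ s.2.2.2.length ≤ a.1.length ∧
    ∀ g ∈ s.2.2.2, g ≤ a.1.length

theorem gl_spec (D : List Bool) : (gl D).length ≤ D.length ∧ ∀ g ∈ gl D, g < D.length := by
  unfold gl
  refine ⟨(List.length_filter_le _ _).trans (by simp), fun g hg => ?_⟩
  have := (List.mem_filter.1 hg).1
  simpa using this

theorem length_ins (D : List Bool) (t : ℕ) : (ins D t).length = D.length := by simp [ins]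

theorem suc_ok (a : A) (s : St) (hs : ok a s) : ∀ s' ∈ suc a s, ok a s' := by
  obtain ⟨tag, D, v, r⟩ := s
  obtain ⟨h1, h2, h3, h4, h5⟩ := hs
  simp only at h1 h2 h3 h4 h5
  intro s' hs'
  unfold suc at hs'
  split_ifs at hs' with c1 c2
  · unfold suc0 at hs'
    simp only at hs'
    split_ifs at hs' with c3 c4
    · simp only [List.mem_cons, List.not_mem_nil, or_false] at hs'
      rcases hs' with rfl | rfl <;>
      · refine ⟨by norm_num, ?_, by simp, by simp, by simp⟩
        simp only [List.length_append, List.length_cons, List.length_nil]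
        omega
    · simp at hs'
    · rw [List.mem_singleton] at hs'
      subst hs'
      exact ⟨by norm_num, h2, by simp, by simp, by simp⟩
  · rw [List.mem_map] at hs'
    obtain ⟨w, hw, rfl⟩ := hs'
    rw [List.mem_range] at hw
    obtain ⟨g1, g2⟩ := gl_spec D
    refine ⟨le_rfl, ?_, hw.le, g1.trans h2, fun g hg => (g2 g hg).le.trans h2⟩
    simp [emp]
  · unfold suc2 at hs'
    simp only at hs'
    split_ifs at hs' with c3 c4
    · rw [List.mem_singleton] at hs'
      subst hs'
      exact ⟨by norm_num, h2, by simp, by simp, by simp⟩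
    · simp at hs'
    · rw [List.mem_map] at hs'
      obtain ⟨t, ht, rfl⟩ := hs'
      refine ⟨le_rfl, by rw [length_ins]; exact h2, h3, ?_, fun g hg => h5 g (List.mem_of_mem_tail hg)⟩
      simp only [List.length_tail]
      omega

theorem ok_bits (a : A) (s : St) (hs : ok a s) : (bits s).length + 1 ≤ mA a := by
  obtain ⟨tag, D, v, r⟩ := s
  obtain ⟨h1, h2, h3, h4, h5⟩ := hs
  simp only at h1 h2 h3 h4 h5
  have hn : a.1.length < sz a := by
    obtain ⟨M, k⟩ := a
    have := length_lt_sz M
    rw [sz_pair]
    simp only
    omega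
  have hsz : ∀ i : ℕ, sz i ≤ 4 * i + 1 := by
    intro i
    have h8 := sz_nat_le i
    have h9 : i.size ≤ i := by
      rw [Nat.size_le]
      exact Nat.lt_two_pow_self
    omega
  have h6 : sz r ≤ r.length * ((4 * sz a + 1) + 1) + 1 := by
    refine sz_le_length_mul r _ fun o ho => ?_
    have := h5 o ho
    have := hsz o
    omega
  have h7 := hsz tag
  have h8 := hsz v
  have h9 := sz_listBool_le D
  have h10 : r.length * ((4 * sz a + 1) + 1) ≤ sz a * (4 * sz a + 2) :=
    Nat.mul_le_mul (by omega) (by omega)
  rw [bits_length, sz_pair, sz_pair, sz_pair]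
  unfold mA
  nlinarith

theorem ok_length (a : A) (s : St) (_ : ok a s) : (suc a s).length ≤ mA a := by
  have hn : a.1.length < sz a := by
    obtain ⟨M, k⟩ := a
    have := length_lt_sz M
    rw [sz_pair]
    simp only
    omega
  have hm : sz a + 20 ≤ mA a := by
    unfold mA
    nlinarith
  unfold suc suc0 suc2
  split_ifs <;> simp only [List.length_cons, List.length_nil, List.length_map, List.length_range]
  all_goals first
    | omega
    | skip
  refine le_trans (List.length_filter_le _ _) ?_
  rw [List.length_range]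
  omega

theorem poly_ent' {α : Type} [TEnc α] {M : α → List (List Bool)} {i j : α → ℕ}
    (hM : NPC.Poly M) (hi : NPC.Poly i) (hj : NPC.Poly j) :
    NPC.Poly (fun a => ent (M a) (i a) (j a)) := by
  unfold ent
  fun_prop

theorem poly_gl {α : Type} [TEnc α] {D : α → List Bool} (hD : NPC.Poly D) :
    NPC.Poly (fun a => gl (D a)) := by
  unfold gl
  have h1 : NPC.Poly (fun a => List.range (D a).length) := (UPoly.length hD).range
  refine NPC.Poly.filter (l := fun a => List.range (D a).length)
    (p := fun a i => (D a).getD i false) h1 ?_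
  fun_prop

theorem poly_ins {α : Type} [TEnc α] {D : α → List Bool} {t : α → ℕ} (hD : NPC.Poly D)
    (ht : NPC.Poly t) : NPC.Poly (fun a => ins (D a) (t a)) := by
  unfold ins
  have h1 : NPC.Poly (fun a => List.range (D a).length) := (UPoly.length hD).range
  fun_prop

theorem poly_tg {α : Type} [TEnc α] {M : α → List (List Bool)} {D : α → List Bool} {g : α → ℕ}
    (hM : NPC.Poly M) (hD : NPC.Poly D) (hg : NPC.Poly g) :
    NPC.Poly (fun a => tg (M a) (D a) (g a)) := by
  unfold tg
  have h1 : NPC.Poly (fun a => List.range (M a).length) := (UPoly.length hM).range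
  refine NPC.Poly.filter (l := fun a => List.range (M a).length)
    (p := fun a t => (decide (t = g a) || ent (M a) (g a) t) && !((D a).getD t false)) h1 ?_
  have h2 : NPC.Poly (fun p : α × ℕ => ent (M p.1) (g p.1) p.2) :=
    poly_ent' (by fun_prop) (by fun_prop) (by fun_prop)
  fun_prop

theorem poly_ex : NPC.Poly (fun p : A × St => ex p.1 p.2) := by
  unfold ex
  fun_prop

theorem poly_suc : NPC.Poly (fun p : A × St => suc p.1 p.2) := by
  unfold suc suc0 suc2 emp
  have h1 : NPC.Poly (fun p : A × St => gl p.2.2.1) := poly_gl (by fun_prop)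
  have h2 : NPC.Poly (fun p : A × St => List.range p.1.1.length) :=
    (UPoly.length (l := fun p : A × St => p.1.1) (by fun_prop)).range
  have h3 : NPC.Poly (fun p : A × St => tg p.1.1 p.2.2.1 (p.2.2.2.2.head?.getD 0)) :=
    poly_tg (by fun_prop) (by fun_prop) (Poly.optGetD (by fun_prop) (by fun_prop))
  have h4 : NPC.Poly (fun p : (A × St) × ℕ => ins p.1.2.2.1 p.2) :=
    poly_ins (by fun_prop) (by fun_prop)
  have h5 : NPC.Poly (fun p : (A × St) × ℕ => gl p.1.2.2.1) := poly_gl (by fun_prop)
  have h6 : NPC.Poly (fun p : (A × St) × ℕ => (List.range p.1.1.1.length).map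
      (fun _ => false)) := by
    have h7 : NPC.Poly (fun p : (A × St) × ℕ => List.range p.1.1.1.length) :=
      (UPoly.length (l := fun p : (A × St) × ℕ => p.1.1.1) (by fun_prop)).range
    fun_prop
  fun_prop

/-- the coded instance -/
noncomputable def rd (x : List Bool) : A := (unbits A x).getD ([], 0)

theorem poly_rd : NPC.Poly rd :=
  Poly.optGetD (g := fun _ => ([], 0)) (poly_unbits (α := A)) (NPC.Poly.const _)

/-- **M-ETERNAL DOMINATION is in `EXPTIME`.** -/
theorem med_exp : H654R2.MED.InEXPTIME (lang MED) := by
  have hb : NPC.Poly (fun x : List Bool => (unbits A x).isSome && goodMat (rd x).1) :=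
    NPC.Poly.and (NPC.Poly.isSome poly_unbits) (poly_goodMat.comp (NPC.Poly.fst poly_rd))
  have hst : NPC.Poly (fun _ : A => ((0, [], 0, []) : St)) := NPC.Poly.const _
  refine inEXPB_of_acc (ok := ok) mA_upoly poly_ex poly_suc hst
    poly_rd hb ?_ suc_ok ok_bits ok_length true ?_
  · intro x _
    exact ⟨by norm_num, by simp, by simp, by simp, by simp⟩
  · intro x
    rw [mem_lang_iff, Bool.and_eq_true]
    simp only [Bool.true_eq_false, iff_false]
    constructor
    · rintro ⟨a, h1, h2⟩
      have h4 : rd x = a := by
        unfold rd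
        rw [h1]
        rfl
      rw [main_iff] at h2
      rw [h4, h1]
      exact ⟨⟨rfl, h2.1⟩, h2.2⟩
    · rintro ⟨⟨h1, h2⟩, h3⟩
      obtain ⟨a, ha⟩ := Option.isSome_iff_exists.1 h1
      have h4 : rd x = a := by
        unfold rd
        rw [ha]
        rfl
      rw [h4] at h2 h3
      exact ⟨a, ha, (main_iff a).2 ⟨h2, h3⟩⟩

end Pool.Agent.Y669.EX.Med
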