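import Pool.Agent.H820R2.SS.ExpTM
import Pool.Agent.H820R2.SS.Hier
import Pool.Agent.H251R5.PQ.T_PAD
import Pool.Agent.H623R2.PS.Savitch
import Pool.Agent.H671R2.PolyAuto
import Pool.Agent.H578R2.Med.NPClos

/-!
# Alternating reachability in implicitly given graphs of exponential size is in EXPTIME
-/

set_option autoImplicit false

namespace Pool.Agent.Y669.EX

open Turing Pool.Agent.NPC Pool.Agent.H820R2.SS Pool.Agent.H251R5.PQ

/-- The class `EXPTIME`, with machines that output exactly one bit. -/
def InEXPB (L : Set (List Bool)) : Prop :=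
  ∃ (f : List Bool → Bool)
    (M : TM2ComputableInTime (id : List Bool → List Bool) (fun b : Bool => [b]) f)
    (p : Polynomial ℕ), (∀ x, x ∈ L ↔ f x = true) ∧ ∀ n, M.time n ≤ 2 ^ p.eval n

theorem InEXPB.inEXPTIME {L : Set (List Bool)} (h : InEXPB L) : InEXPTIME L := by
  obtain ⟨f, M, p, h1, h2⟩ := h
  exact ⟨fun x => [f x], { tm := M.tm
                           inputAlphabet := M.inputAlphabet
                           outputAlphabet := M.outputAlphabet
                           time := M.time
                           outputsFun := M.outputsFun }, p, h2, fun x => by rw [h1 x]; simp⟩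

/-- The time hierarchy theorem. -/
theorem exists_inEXPB_not_inP : ∃ L : Set (List Bool), InEXPB L ∧ ¬ InP L := by
  refine ⟨diagL, ?_, diagL_not_inP⟩
  obtain ⟨k, M, hM⟩ := dg_time
  refine ⟨Dg, { tm := M.tm
                inputAlphabet := M.inputAlphabet
                outputAlphabet := M.outputAlphabet
                time := M.time
                outputsFun := M.outputsFun },
    Polynomial.C k * ((Polynomial.X + Polynomial.C 1) * (Polynomial.X + Polynomial.C 1) +
      Polynomial.X + Polynomial.C 3) + Polynomial.C (2 * k + 1), fun x => Iff.rfl, ?_⟩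
  intro n
  refine (hM n).trans ?_
  simp only [Polynomial.eval_add, Polynomial.eval_mul, Polynomial.eval_C, Polynomial.eval_X]
  have h1 : n + 2 ^ ((n + 1) * (n + 1)) + 2 ≤ 2 ^ ((n + 1) * (n + 1) + n + 3) := by
    have h2 : n < 2 ^ n := Nat.lt_two_pow_self
    have h3 : 2 ^ ((n + 1) * (n + 1) + n + 3) = 2 ^ ((n + 1) * (n + 1)) * 2 ^ n * 8 := by
      rw [pow_add, pow_add]
      norm_num
    have h4 : 1 ≤ 2 ^ ((n + 1) * (n + 1)) := Nat.one_le_two_pow
    rw [h3]
    nlinarith [Nat.mul_le_mul h4 h2.le]
  have h2 : (n + 2 ^ ((n + 1) * (n + 1)) + 2) ^ k ≤ 2 ^ (((n + 1) * (n + 1) + n + 3) * k) := by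
    rw [pow_mul (2 : ℕ) ((n + 1) * (n + 1) + n + 3) k]
    exact Nat.pow_le_pow_left h1 k
  have h3 : k < 2 ^ k := Nat.lt_two_pow_self
  have h4 : 1 ≤ 2 ^ (((n + 1) * (n + 1) + n + 3) * k) := Nat.one_le_two_pow
  have h5 : k * (n + 2 ^ ((n + 1) * (n + 1)) + 2) ^ k ≤
      2 ^ k * 2 ^ (((n + 1) * (n + 1) + n + 3) * k) := Nat.mul_le_mul h3.le h2
  have h6 : k ≤ 2 ^ k * 2 ^ (((n + 1) * (n + 1) + n + 3) * k) := by nlinarith
  have h7 : 2 ^ (k * ((n + 1) * (n + 1) + n + 3) + (2 * k + 1)) =
      2 ^ (((n + 1) * (n + 1) + n + 3) * k) * (2 ^ k * 2 ^ k * 2) := by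
    rw [show k * ((n + 1) * (n + 1) + n + 3) + (2 * k + 1) =
      ((n + 1) * (n + 1) + n + 3) * k + (k + k + 1) by ring, pow_add, pow_add, pow_add]
    ring
  rw [h7]
  have h8 : 1 ≤ 2 ^ k := Nat.one_le_two_pow
  have h9 : 2 ^ k * 2 ^ (((n + 1) * (n + 1) + n + 3) * k) ≤
      2 ^ (((n + 1) * (n + 1) + n + 3) * k) * (2 ^ k * 2 ^ k) := by
    nlinarith [Nat.mul_le_mul h8 (le_refl (2 ^ k * 2 ^ (((n + 1) * (n + 1) + n + 3) * k)))]
  nlinarith

/-- A program of exponential running time. -/
theorem inEXPB_of_runs {L : Set (List Bool)} {v : List Bool → Bool} {c : Cmd ℕ}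
    {t : ℕ → ℕ} (hc : ∀ x, Runs c (inp x) (inp [v x]) (t x.length)) (ht : ExpB t)
    (hL : ∀ x, x ∈ L ↔ v x = true) : InEXPB L := by
  have key : ∀ x : List Bool, ∃ s, s ≤ t x.length + 1 ∧
      Nonempty (TM2OutputsInTime (c.map (Fin.ofNat (c.bd + 1))).toTM x (some [v x]) s) := by
    intro x
    obtain ⟨s, hs, hr⟩ := hc x
    have h1 := hr.restrict (n := c.bd) (by omega)
    refine ⟨s + 1, by simpa using hs, toTM_outputs ?_⟩
    convert! h1 using 1
    · funext i
      by_cases hi : i = 0
      · subst hi; simp [inp]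
      · have : (i : ℕ) ≠ 0 := fun h => hi (Fin.ext h)
        simp [inp, hi, this]
    · funext i
      by_cases hi : i = 0
      · subst hi
        simp [inp]
        try rfl
      · have : (i : ℕ) ≠ 0 := fun h => hi (Fin.ext h)
        simp [inp, hi, this]
  obtain ⟨p, hp⟩ := ht.add (ExpB.const 1)
  refine ⟨v, { tm := (c.map (Fin.ofNat (c.bd + 1))).toTM
               inputAlphabet := Equiv.refl Bool
               outputAlphabet := Equiv.refl Bool
               time := fun n => t n + 1
               outputsFun := ?_ }, p, hL, hp⟩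
  intro x
  have hx := key x
  have hs := hx.choose_spec.1
  have hm := hx.choose_spec.2.some
  exact outputs_conv (List.map_id x).symm (List.map_id [v x]).symm hs hm

/-- A function that is polynomial-time computable on padded inputs. -/
theorem inEXPB_of_padded {A : Type} [TEnc A] {f : List Bool → A}
    (hf : PC (fun x : List Bool => x) (bits : A → List Bool) f) {g : A → Bool} {m : A → ℕ}
    (hm : UPoly m)
    (hg : NPC.Poly (fun x : {x : A × List Unit // 2 ^ m x.1 ≤ x.2.length} => g x.1.1))
    {L : Set (List Bool)} (hL : ∀ x, x ∈ L ↔ g (f x) = true) : InEXPB L := by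
  obtain ⟨c2, P2, h2⟩ := fpt_run g m (fun n => n) hm hg
  obtain ⟨s, hs⟩ := PC.length_le hf
  obtain ⟨c1, P1, h1⟩ := hf
  obtain ⟨c3, P3, h3⟩ := PC.rawBool
  obtain ⟨r, hr⟩ := hm.sz_le
  have hm' : ∀ a, m a ≤ r.eval (sz a) := by
    intro a
    have := hr a
    rw [sz_replicate_unit] at this
    omega
  let w : Polynomial ℕ := Polynomial.C 2 * r.comp s + Polynomial.C 4
  have hw : ∀ x : List Bool, 2 * m (f x) + 4 ≤ w.eval x.length := by
    intro x
    have h4 := hm' (f x)
    have h5 := hs x
    rw [bits_length] at h5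
    have h6 := eval_mono r h5
    simp only [w, Polynomial.eval_add, Polynomial.eval_mul, Polynomial.eval_C,
      Polynomial.eval_comp]
    omega
  refine inEXPB_of_runs (c := Cmd.seq (Cmd.seq c1 c2) c3) (v := fun x => g (f x))
    (t := fun n => P1.eval n + P2.eval (s.eval n + 2 ^ w.eval n) + P3.eval 3 + 5) ?_ ?_ ?_
  · intro x
    have e1 := h1 x
    have e2 : Runs c2 (inp (bits (f x))) (inp (bits (g (f x))))
        (P2.eval ((bits (f x)).length + 2 ^ (2 * m (f x) + 4))) := h2 (f x)
    have e3 := h3 (g (f x))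
    refine ((e1.seq e2).seq e3).mono ?_
    beta_reduce
    have h4 : (bits (g (f x))).length ≤ 3 := by
      rw [bits_length]
      exact sz_bool_le _
    have h5 := eval_mono P3 h4
    have h6 : (bits (f x)).length + 2 ^ (2 * m (f x) + 4) ≤
        s.eval x.length + 2 ^ w.eval x.length :=
      Nat.add_le_add (hs x) (Nat.pow_le_pow_right (by norm_num) (hw x))
    have h7 := eval_mono P2 h6
    omega
  · exact (((ExpB.poly P1).add (((ExpB.poly s).add (ExpB.pow2 w)).eval P2)).add
      (ExpB.const _)).add (ExpB.const 5)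
  · exact hL

/-! ### Alternating reachability -/

/-- Acceptance in an AND-OR graph: a state with `ex a s = true` is accepting if some successor is,
the other states are accepting if all their successors are. -/
inductive Acc {A S : Type} (ex : A → S → Bool) (suc : A → S → List S) (a : A) : S → Prop
  | some {s s' : S} (h : ex a s = true) (hs : s' ∈ suc a s) (h' : Acc ex suc a s') :
      Acc ex suc a s
  | all {s : S} (h : ex a s = false) (h' : ∀ s' ∈ suc a s, Acc ex suc a s') : Acc ex suc a s

/-- a string of length `n` coding an object -/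
def encS {S : Type} [TEnc S] (n : ℕ) (s : S) : List Bool :=
  bits s ++ true :: List.replicate (n - ((bits s).length + 1)) false

/-- the object coded by a string -/
def decS {S : Type} [TEnc S] [TDec S] (c : List Bool) : Option S := (padDec c).bind (fun l => unbits S l)

theorem decS_encS {S : Type} [TEnc S] [TDec S] (n : ℕ) (s : S) : decS (encS n s) = some s := by
  unfold decS encS
  rw [pad_dec, Option.bind_some, unbits_bits]

theorem encS_length {S : Type} [TEnc S] {n : ℕ} {s : S} (h : (bits s).length + 1 ≤ n) :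
    (encS n s).length = n := by
  unfold encS
  simp only [List.length_append, List.length_cons, List.length_replicate]
  omega

theorem decS_poly {S : Type} [TEnc S] [TDec S] : NPC.Poly (decS : List Bool → Option S) := by
  unfold decS
  exact NPC.Poly.optBind (f := fun _ l => unbits S l) pad_poly
    (poly_unbits.comp (NPC.Poly.snd NPC.Poly.id))

theorem encS_poly {α S : Type} [TEnc α] [TEnc S] {n : α → ℕ} {a : α → S} (hn : UPoly n)
    (ha : NPC.Poly a) : NPC.Poly (fun x => encS (n x) (a x)) := by
  unfold encS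
  have h1 : NPC.Poly (fun x => bits (a x)) := (NPC.Med.poly_bits).comp ha
  have h2 : NPC.Poly (fun x => n x - ((bits (a x)).length + 1)) :=
    NPC.Poly.sub hn.toPoly (NPC.Poly.add (NPC.Poly.length h1) (NPC.Poly.const 1))
  exact NPC.Poly.append h1 (NPC.Poly.cons (NPC.Poly.const _)
    (Pool.Agent.H623R2.PS.poly_replicate (UPoly.of_le h2 hn (fun _ => Nat.sub_le _ _)) false))

section main

variable {A S : Type} [TEnc A] [TEnc S] [TDec S] (ex : A → S → Bool) (suc : A → S → List S) (m : A → ℕ)

/-- the local test -/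
def locT (a : A) (c : List Bool) (cs : List (List Bool)) : Bool :=
  (decS (S := S) c).elim false (fun s =>
    (ex a s && (suc a s).any (fun s' => decide (encS (m a) s' ∈ cs))) ||
    (!(ex a s) && (suc a s).all (fun s' => decide (encS (m a) s' ∈ cs))))

variable {ex suc m} {ok : A → S → Prop}

theorem gen_of_acc {a : A} (h1 : ∀ s, ok a s → ∀ s' ∈ suc a s, ok a s')
    (h2 : ∀ s, ok a s → (bits s).length + 1 ≤ m a) (h3 : ∀ s, ok a s → (suc a s).length ≤ m a)
    {s : S} (h : Acc ex suc a s) : ok a s → Gen m (locT ex suc m) a (encS (m a) s) := by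
  induction h with
  | @some s s' h hs h' ih =>
    intro hok
    have hok' := h1 s hok s' hs
    refine Gen.mk _ [encS (m a) s'] (encS_length (h2 s hok)) ?_ ?_ ?_
    · have := h2 s hok
      simp only [List.length_cons, List.length_nil]
      omega
    · unfold locT
      rw [decS_encS]
      simp only [Option.elim_some, h, Bool.true_and, Bool.not_true, Bool.false_and, Bool.or_false,
        List.any_eq_true, decide_eq_true_eq]
      exact ⟨s', hs, by simp⟩
    · intro c' hc'
      rw [List.mem_singleton] at hc'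
      subst hc'
      exact ih hok'
  | @all s h h' ih =>
    intro hok
    refine Gen.mk _ ((suc a s).map (encS (m a))) (encS_length (h2 s hok)) ?_ ?_ ?_
    · rw [List.length_map]
      exact h3 s hok
    · unfold locT
      rw [decS_encS]
      simp only [Option.elim_some, h, Bool.false_and, Bool.not_false, Bool.true_and,
        Bool.false_or, List.all_eq_true, decide_eq_true_eq]
      intro s' hs'
      exact List.mem_map_of_mem hs'
    · intro c' hc'
      obtain ⟨s', hs', rfl⟩ := List.mem_map.1 hc'
      exact ih s' hs' (h1 s hok s' hs')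

theorem acc_of_gen {a : A} (h1 : ∀ s, ok a s → ∀ s' ∈ suc a s, ok a s')
    {c : List Bool} (h : Gen m (locT ex suc m) a c) :
    ∀ s, ok a s → c = encS (m a) s → Acc ex suc a s := by
  induction h with
  | mk c cs g1 g2 g3 g4 ih =>
    rintro s hok rfl
    unfold locT at g3
    rw [decS_encS] at g3
    simp only [Option.elim_some, Bool.or_eq_true, Bool.and_eq_true, List.any_eq_true,
      decide_eq_true_eq, Bool.not_eq_true', List.all_eq_true] at g3
    rcases g3 with ⟨h, s', hs', hc⟩ | ⟨h, hc⟩
    · exact Acc.some h hs' (ih _ hc s' (h1 s hok s' hs') rfl)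
    · exact Acc.all h (fun s' hs' => ih _ (hc s' hs') s' (h1 s hok s' hs') rfl)

theorem poly_locT (hm : UPoly m) (hex : NPC.Poly (fun p : A × S => ex p.1 p.2))
    (hsuc : NPC.Poly (fun p : A × S => suc p.1 p.2)) :
    NPC.Poly (fun q : A × List Bool × List (List Bool) => locT ex suc m q.1 q.2.1 q.2.2) := by
  unfold locT
  have e1 : NPC.Poly (fun q : (A × List Bool × List (List Bool)) × S => ex q.1.1 q.2) :=
    hex.comp (f := fun q : (A × List Bool × List (List Bool)) × S => (q.1.1, q.2)) (by fun_prop)
  have e2 : NPC.Poly (fun q : (A × List Bool × List (List Bool)) × S => suc q.1.1 q.2) :=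
    hsuc.comp (f := fun q : (A × List Bool × List (List Bool)) × S => (q.1.1, q.2)) (by fun_prop)
  have e3 : NPC.Poly (fun r : ((A × List Bool × List (List Bool)) × S) × S =>
      decide (encS (m r.1.1.1) r.2 ∈ r.1.1.2.2)) :=
    NPC.Poly.dec_mem (encS_poly (hm.comp (f := fun r : ((A × List Bool × List (List Bool)) × S) × S
      => r.1.1.1) (by fun_prop)) (by fun_prop)) (by fun_prop)
  refine NPC.Poly.optElim (o := fun q : A × List Bool × List (List Bool) => decS (S := S) q.2.1)
    (g := fun _ => false) (h := fun q s =>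
    (ex q.1 s && (suc q.1 s).any (fun s' => decide (encS (m q.1) s' ∈ q.2.2))) ||
    (!(ex q.1 s) && (suc q.1 s).all (fun s' => decide (encS (m q.1) s' ∈ q.2.2))))
    (decS_poly.comp (by fun_prop)) (NPC.Poly.const _) ?_
  refine NPC.Poly.or (NPC.Poly.and e1 ?_) (NPC.Poly.and (NPC.Poly.not e1) ?_)
  · exact NPC.Poly.any (l := fun q : (A × List Bool × List (List Bool)) × S => suc q.1.1 q.2)
      (p := fun q s' => decide (encS (m q.1.1) s' ∈ q.1.2.2)) e2 e3
  · exact NPC.Poly.all (l := fun q : (A × List Bool × List (List Bool)) × S => suc q.1.1 q.2)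
      (p := fun q s' => decide (encS (m q.1.1) s' ∈ q.1.2.2)) e2 e3

/-- Change of the padded type. -/
theorem poly_pad {m : A → ℕ} {G : A → Bool} (neg : Bool)
    (hG : NPC.Poly (fun x : Pad m => G x.1.1)) :
    NPC.Poly (fun x : {x : (A × Bool) × List Unit //
      2 ^ ((m x.1.1 + 1) * (m x.1.1 + 1)) ≤ x.2.length} => (x.1.1.2 && xor neg (G x.1.1.1))) := by
  have h1 : NPC.Poly (fun x : {x : (A × Bool) × List Unit //
      2 ^ ((m x.1.1 + 1) * (m x.1.1 + 1)) ≤ x.2.length} =>
        (⟨(x.1.1.1, x.1.2), x.2⟩ : Pad m)) :=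
    NPC.Poly.of_toT (NPC.Poly.toT' (NPC.Poly.pair (NPC.Poly.fst (NPC.Poly.fst (Poly.val _)))
      (NPC.Poly.snd (Poly.val _))))
  have h2 := hG.comp h1
  exact NPC.Poly.and (NPC.Poly.snd (NPC.Poly.fst (Poly.val _)))
    (NPC.Poly.xor (NPC.Poly.const neg) h2)

/-- **Alternating reachability is decidable in exponential time**, and so is its complement. -/
theorem inEXPB_of_acc (hm : UPoly m) (hex : NPC.Poly (fun p : A × S => ex p.1 p.2))
    (hsuc : NPC.Poly (fun p : A × S => suc p.1 p.2)) {start : A → S} (hst : NPC.Poly start)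
    {f : List Bool → A} (hf : NPC.Poly f) {b : List Bool → Bool} (hb : NPC.Poly b)
    (h0 : ∀ x, b x = true → ok (f x) (start (f x)))
    (h1 : ∀ a s, ok a s → ∀ s' ∈ suc a s, ok a s')
    (h2 : ∀ a s, ok a s → (bits s).length + 1 ≤ m a)
    (h3 : ∀ a s, ok a s → (suc a s).length ≤ m a) (neg : Bool)
    {L : Set (List Bool)}
    (hL : ∀ x, x ∈ L ↔ b x = true ∧ (Acc ex suc (f x) (start (f x)) ↔ neg = false)) :
    InEXPB L := by
  have hm' : UPoly (fun p : A × Bool => (m p.1 + 1) * (m p.1 + 1)) :=
    (UPoly.mul (UPoly.add hm (UPoly.const 1)) (UPoly.add hm (UPoly.const 1))).comp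
      (NPC.Poly.fst NPC.Poly.id)
  have hf' : PC (fun x : List Bool => x) (bits : A × Bool → List Bool) (fun x => (f x, b x)) :=
    PC.comp (g := fun x => (f x, b x)) (f := fun x => x) (NPC.Poly.pair hf hb) PC.rawIn
  have hst' : NPC.Poly (fun a => encS (m a) (start a)) := encS_poly hm hst
  refine inEXPB_of_padded (A := A × Bool) (f := fun x => (f x, b x))
    (g := fun p => p.2 && xor neg (genB m (locT ex suc m) (fun a => encS (m a) (start a)) p.1))
    (m := fun p => (m p.1 + 1) * (m p.1 + 1)) hf' hm'
    (poly_pad neg (poly_genB hm (poly_locT hm hex hsuc) hst')) fun x => ?_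
  rw [hL x, Bool.and_eq_true]
  refine and_congr_right fun hbx => ?_
  have hok := h0 x hbx
  have key : Acc ex suc (f x) (start (f x)) ↔
      genB m (locT ex suc m) (fun a => encS (m a) (start a)) (f x) = true := by
    rw [genB_iff]
    exact ⟨fun h => gen_of_acc (h1 _) (h2 _) (h3 _) h hok, fun h => acc_of_gen (h1 _) h _ hok rfl⟩
  rw [key]
  cases neg <;> cases genB m (locT ex suc m) (fun a => encS (m a) (start a)) (f x) <;> simp

end main

end Pool.Agent.Y669.EX
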