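import Pool.Agent.Y669.EX.AndOr
import Pool.Agent.H578R2.ANN.PolyI

/-!
# The outcome of Annihilation is decidable in exponential time
-/

set_option autoImplicit false

namespace Pool.Agent.Y669.EX.Ann

open Turing Pool.Agent.NPC Pool.Agent.NPC.ANN Pool.Agent.Y669.EX

/-- the placement after a move -/
def newP (P : List (Option ℕ)) (i u v : ℕ) : List (Option ℕ) :=
  (List.range P.length).map (fun x => if x = v then (if P.getD v none = none then some i else none)
    else if x = u then none else P.getD x none)

/-- the list of the placements after one move -/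
def mvs (A : Annih) (P : List (Option ℕ)) : List (List (Option ℕ)) :=
  A.2.1.zipIdx.flatMap (fun q => (q.1.filter (fun e => decide (P.getD e.1 none = some q.2))).map
    (fun e => newP P q.2 e.1 e.2))

theorem mem_mvs {A : Annih} {P Q : List (Option ℕ)} : Q ∈ mvs A P ↔ ∃ i u v,
    P.getD u none = some i ∧ (u, v) ∈ A.2.1.getD i [] ∧ Q = newP P i u v := by
  unfold mvs
  rw [List.mem_flatMap]
  constructor
  · rintro ⟨⟨l, i⟩, hq, h⟩
    rw [List.mem_map] at h
    obtain ⟨⟨u, v⟩, he, rfl⟩ := h
    rw [List.mem_filter, decide_eq_true_eq] at he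
    rw [List.mem_zipIdx_iff_getElem?] at hq
    refine ⟨i, u, v, he.2, ?_, rfl⟩
    rw [List.getD_eq_getElem?_getD, hq]
    exact he.1
  · rintro ⟨i, u, v, h1, h2, rfl⟩
    have hi : i < A.2.1.length := by
      by_contra hi
      rw [List.getD_eq_default _ _ (by omega)] at h2
      simp at h2
    refine ⟨(A.2.1.getD i [], i), ?_, ?_⟩
    · rw [List.mem_zipIdx_iff_getElem?]
      rw [List.getD_eq_getElem _ _ hi]
      simp [hi]
    · rw [List.mem_map]
      refine ⟨(u, v), ?_, rfl⟩
      rw [List.mem_filter, decide_eq_true_eq]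
      exact ⟨h2, h1⟩

theorem length_newP (P : List (Option ℕ)) (i u v : ℕ) : (newP P i u v).length = P.length := by
  simp [newP]

theorem getD_newP {P : List (Option ℕ)} {i u v : ℕ} (hv : v < P.length) :
    (fun x => (newP P i u v).getD x none) =
      Function.update (Function.update (fun x => P.getD x none) u none) v
        (if P.getD v none = none then some i else none) := by
  funext x
  rw [Function.update_apply, Function.update_apply]
  unfold newP
  by_cases hx : x < P.length
  · rw [List.getD_eq_getElem _ _ (by simpa using hx)]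
    simp
  · rw [List.getD_eq_default _ _ (by simpa using hx)]
    rw [if_neg (by omega)]
    split_ifs
    · rfl
    · rw [List.getD_eq_default _ _ (by omega)]

/-- All edges which can be used join vertices. -/
def InRange (A : Annih) (n : ℕ) : Prop := ∀ i, ∀ e ∈ A.2.1.getD i [], e.1 < n ∧ e.2 < n

theorem forces_iff {A : Annih} {P : List (Option ℕ)} (hA : InRange A P.length) (w : Bool) :
    Forces (Mv A) w (fun v => P.getD v none) ↔ Forces (fun P Q => Q ∈ mvs A P) w P := by
  refine Forces.bisim_iff (R := fun (F : ℕ → Option ℕ) (l : List (Option ℕ)) =>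
    F = (fun v => l.getD v none) ∧ l.length = P.length) ?_ ?_ ⟨rfl, rfl⟩
  · rintro F l ⟨rfl, hl⟩ F' ⟨i, u, v, h1, h2, rfl⟩
    refine ⟨newP l i u v, mem_mvs.2 ⟨i, u, v, h1, h2, rfl⟩, ?_, ?_⟩
    · rw [getD_newP (by rw [hl]; exact (hA i _ h2).2)]
    · rw [length_newP, hl]
  · rintro F l ⟨rfl, hl⟩ l' hl'
    obtain ⟨i, u, v, h1, h2, rfl⟩ := mem_mvs.1 hl'
    refine ⟨_, ⟨i, u, v, h1, h2, rfl⟩, ?_, ?_⟩
    · rw [getD_newP (by rw [hl]; exact (hA i _ h2).2)]
    · rw [length_newP, hl]

/-- states: a tag and a placement -/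
abbrev St : Type := ℕ × List (Option ℕ)

/-- tags: `0` the other player wins, `1` the player to move wins, `2` one of the players wins -/
def ex (_ : Annih) (s : St) : Bool := decide (1 ≤ s.1)

/-- successors -/
def suc (A : Annih) (s : St) : List St :=
  if s.1 = 0 then (mvs A s.2).map (fun P => (1, P))
  else if s.1 = 1 then (mvs A s.2).map (fun P => (0, P))
  else [(0, s.2), (1, s.2)]

theorem acc_of_forces {A : Annih} {w : Bool} {P : List (Option ℕ)}
    (h : Forces (fun P Q => Q ∈ mvs A P) w P) : Acc ex suc A (w.toNat, P) := by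
  induction h with
  | @win p q h hq ih =>
    refine Acc.some (s' := (0, q)) rfl ?_ ih
    simp [suc, h]
  | @lose p h ih =>
    refine Acc.all rfl ?_
    intro s' hs'
    simp only [suc, Bool.toNat_false, if_true, List.mem_map] at hs'
    obtain ⟨q, hq, rfl⟩ := hs'
    exact ih q hq

theorem forces_of_acc {A : Annih} {s : St} (h : Acc ex suc A s) :
    (s.1 = 0 → Forces (fun P Q => Q ∈ mvs A P) false s.2) ∧
    (s.1 = 1 → Forces (fun P Q => Q ∈ mvs A P) true s.2) ∧
    (s.1 = 2 → Forces (fun P Q => Q ∈ mvs A P) false s.2 ∨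
      Forces (fun P Q => Q ∈ mvs A P) true s.2) := by
  induction h with
  | @some s s' h hs h' ih =>
    refine ⟨fun h0 => ?_, fun h1 => ?_, fun h2 => ?_⟩
    · simp [ex, h0] at h
    · simp only [suc, h1, one_ne_zero, if_false, if_true, List.mem_map] at hs
      obtain ⟨q, hq, rfl⟩ := hs
      exact .win hq (ih.1 rfl)
    · simp only [suc, h2, List.mem_cons, List.not_mem_nil, or_false] at hs
      norm_num at hs
      rcases hs with rfl | rfl
      · exact Or.inl (ih.1 rfl)
      · exact Or.inr (ih.2.1 rfl)
  | @all s h h' ih =>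
    have hs0 : s.1 = 0 := by
      simp only [ex, decide_eq_false_iff_not] at h
      omega
    refine ⟨fun h0 => .lose fun q hq => ?_, fun h1 => by omega, fun h2 => by omega⟩
    have := ih (1, q) (by simp [suc, h0, hq])
    exact this.2.1 rfl

theorem acc_iff (A : Annih) (P : List (Option ℕ)) :
    (Acc ex suc A (0, P) ↔ Forces (fun P Q => Q ∈ mvs A P) false P) ∧
    (Acc ex suc A (1, P) ↔ Forces (fun P Q => Q ∈ mvs A P) true P) ∧
    (Acc ex suc A (2, P) ↔ Forces (fun P Q => Q ∈ mvs A P) false P ∨
      Forces (fun P Q => Q ∈ mvs A P) true P) := by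
  refine ⟨⟨fun h => (forces_of_acc h).1 rfl, fun h => acc_of_forces h⟩,
    ⟨fun h => (forces_of_acc h).2.1 rfl, fun h => acc_of_forces h⟩,
    ⟨fun h => (forces_of_acc h).2.2 rfl, ?_⟩⟩
  rintro (h | h)
  · exact Acc.some (s' := (0, P)) rfl (by simp [suc]) (acc_of_forces h)
  · exact Acc.some (s' := (1, P)) rfl (by simp [suc]) (acc_of_forces h)

/-! ### Sizes and polynomial time -/

/-- the length of the codes of the states -/
def mA (A : Annih) : ℕ := (10 * sz A + 20) * (10 * sz A + 20)

theorem mA_upoly : UPoly mA := by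
  have h : UPoly (fun A : Annih => 10 * sz A + 20) :=
    UPoly.add (UPoly.mul (UPoly.const 10) ((UPoly.length (NPC.Med.poly_bits (α := Annih))).congr
      fun a => by beta_reduce; rw [bits_length])) (UPoly.const 20)
  exact UPoly.mul h h

/-- the states which occur -/
def ok (A : Annih) (s : St) : Prop :=
  s.1 ≤ 2 ∧ s.2.length = A.2.2.length ∧ ∀ i, some i ∈ s.2 → i < A.2.1.length

theorem suc_ok (A : Annih) (s : St) (hs : ok A s) : ∀ s' ∈ suc A s, ok A s' := by
  have key : ∀ Q ∈ mvs A s.2, Q.length = A.2.2.length ∧ ∀ i, some i ∈ Q → i < A.2.1.length := by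
    intro Q hQ
    obtain ⟨i, u, v, h1, h2, rfl⟩ := mem_mvs.1 hQ
    refine ⟨by rw [length_newP]; exact hs.2.1, fun j hj => ?_⟩
    have hi : i < A.2.1.length := by
      by_contra hi
      rw [List.getD_eq_default _ _ (by omega)] at h2
      simp at h2
    unfold newP at hj
    rw [List.mem_map] at hj
    obtain ⟨x, hx, hj⟩ := hj
    split_ifs at hj with c1 c2 c3
    · exact (Option.some.inj hj) ▸ hi
    · refine hs.2.2 j ?_
      rw [← hj]
      rw [List.mem_range] at hx
      rw [List.getD_eq_getElem _ _ hx]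
      exact List.getElem_mem _
  intro s' hs'
  unfold suc at hs'
  split_ifs at hs' with c1 c2
  · obtain ⟨Q, hQ, rfl⟩ := List.mem_map.1 hs'
    exact ⟨by norm_num, key Q hQ⟩
  · obtain ⟨Q, hQ, rfl⟩ := List.mem_map.1 hs'
    exact ⟨by norm_num, key Q hQ⟩
  · simp only [List.mem_cons, List.not_mem_nil, or_false] at hs'
    rcases hs' with rfl | rfl
    · exact ⟨by norm_num, hs.2⟩
    · exact ⟨by norm_num, hs.2⟩

theorem sz_snd (A : Annih) : sz A.2.1 ≤ sz A ∧ sz A.2.2 ≤ sz A := by
  obtain ⟨a, b, c⟩ := A
  rw [sz_pair, sz_pair]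
  simp only
  omega

theorem ok_bits (A : Annih) (s : St) (hs : ok A s) : (bits s).length + 1 ≤ mA A := by
  obtain ⟨t, P⟩ := s
  obtain ⟨h1, h2, h3⟩ := hs
  simp only at h1 h2 h3
  obtain ⟨e1, e2⟩ := sz_snd A
  have h4 := length_lt_sz A.2.1
  have h5 := length_lt_sz A.2.2
  have h6 : sz P ≤ P.length * ((4 * sz A + 4) + 1) + 1 := by
    refine sz_le_length_mul P _ fun o ho => ?_
    cases o with
    | none => rw [sz_none]; omega
    | some i =>
      rw [sz_some]
      have h7 := h3 i ho
      have h8 := sz_nat_le i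
      have h9 : i.size ≤ i := by
        rw [Nat.size_le]
        exact Nat.lt_two_pow_self
      omega
  have h7 : sz t ≤ 20 := by
    have h8 := sz_nat_le t
    have h9 : t.size ≤ t := by
      rw [Nat.size_le]
      exact Nat.lt_two_pow_self
    omega
  rw [bits_length, sz_pair]
  have h8 : P.length * ((4 * sz A + 4) + 1) ≤ sz A * (4 * sz A + 5) := by
    rw [h2]
    exact Nat.mul_le_mul (by omega) (by omega)
  unfold mA
  nlinarith

theorem length_mvs (A : Annih) (P : List (Option ℕ)) : (mvs A P).length ≤ sz A * sz A := by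
  unfold mvs
  rw [List.length_flatMap]
  obtain ⟨e1, e2⟩ := sz_snd A
  have h1 : ((A.2.1.zipIdx).map (fun q => ((q.1.filter (fun e => decide (P.getD e.1 none =
      some q.2))).map (fun e => newP P q.2 e.1 e.2)).length)).sum ≤
      (A.2.1.zipIdx).length * sz A := by
    rw [← List.length_map (f := fun q => ((q.1.filter (fun e => decide (P.getD e.1 none =
      some q.2))).map (fun e => newP P q.2 e.1 e.2)).length)]
    rw [← smul_eq_mul]
    refine List.sum_le_card_nsmul _ _ fun x hx => ?_
    obtain ⟨q, hq, rfl⟩ := List.mem_map.1 hx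
    rw [List.length_map]
    refine (List.length_filter_le _ _).trans ?_
    obtain ⟨l, i⟩ := q
    have h2 := List.fst_mem_of_mem_zipIdx hq
    have h3 := length_lt_sz l
    have h4 := sz_le_of_mem h2
    simp only at h4 ⊢
    omega
  refine h1.trans ?_
  rw [List.length_zipIdx]
  have := length_lt_sz A.2.1
  exact Nat.mul_le_mul (by omega) le_rfl

theorem ok_length (A : Annih) (s : St) (_ : ok A s) : (suc A s).length ≤ mA A := by
  have h := length_mvs A s.2
  unfold suc mA
  split_ifs
  · rw [List.length_map]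
    nlinarith
  · rw [List.length_map]
    nlinarith
  · simp only [List.length_cons, List.length_nil]
    nlinarith

theorem poly_newP {α : Type} [TEnc α] {P : α → List (Option ℕ)} {i u v : α → ℕ}
    (hP : NPC.Poly P) (hi : NPC.Poly i) (hu : NPC.Poly u) (hv : NPC.Poly v) :
    NPC.Poly (fun a => newP (P a) (i a) (u a) (v a)) := by
  unfold newP
  have h1 : NPC.Poly (fun a => List.range (P a).length) := (UPoly.length hP).range
  fun_prop

theorem poly_mvs : NPC.Poly (fun p : Annih × List (Option ℕ) => mvs p.1 p.2) := by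
  unfold mvs
  refine NPC.Poly.flatMap (F := fun (p : Annih × List (Option ℕ)) (q : List (ℕ × ℕ) × ℕ) =>
    (q.1.filter (fun e => decide (p.2.getD e.1 none = some q.2))).map
    (fun e => newP p.2 q.2 e.1 e.2)) (l := fun p => p.1.2.1.zipIdx) ?_ ?_
  · fun_prop
  refine NPC.Poly.map (F := fun (r : (Annih × List (Option ℕ)) × (List (ℕ × ℕ) × ℕ))
    (e : ℕ × ℕ) => newP r.1.2 r.2.2 e.1 e.2) ?_ ?_
  · fun_prop
  · exact poly_newP (by fun_prop) (by fun_prop) (by fun_prop) (by fun_prop)

theorem poly_ex : NPC.Poly (fun p : Annih × St => ex p.1 p.2) := by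
  unfold ex
  fun_prop

theorem poly_suc : NPC.Poly (fun p : Annih × St => suc p.1 p.2) := by
  unfold suc
  have h : NPC.Poly (fun p : Annih × St => mvs p.1 p.2.2) :=
    poly_mvs.comp (f := fun p : Annih × St => (p.1, p.2.2)) (by fun_prop)
  fun_prop

/-! ### The test for positions -/

/-- the test for correct descriptions -/
def posB (A : Annih) : Bool :=
  (A.1.all (fun e => decide (e.1 < A.2.2.length) && (decide (e.2 < A.2.2.length) &&
    !(decide (e.1 = e.2)))) && decide (2 ≤ A.2.1.length)) &&
  (A.2.1.all (fun l => l.all (fun e => decide (e ∈ A.1))) &&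
    A.2.2.all (fun o => o.elim true (fun i => decide (i < A.2.1.length))))

theorem posB_iff (A : Annih) : posB A = true ↔ IsPosition A := by
  unfold posB IsPosition
  simp only [Bool.and_eq_true, List.all_eq_true, decide_eq_true_eq, Bool.not_eq_true',
    decide_eq_false_iff_not]
  constructor
  · rintro ⟨⟨h1, h2⟩, h3, h4⟩
    exact ⟨h1, h2, h3, fun i hi => by simpa using h4 _ hi⟩
  · rintro ⟨h1, h2, h3, h4⟩
    refine ⟨⟨h1, h2⟩, h3, fun o ho => ?_⟩
    cases o with
    | none => rfl
    | some i => simpa using h4 i ho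

theorem poly_posB : NPC.Poly posB := by
  unfold posB
  refine NPC.Poly.and (by fun_prop) (NPC.Poly.and (by fun_prop) ?_)
  refine NPC.Poly.all (l := fun A : Annih => A.2.2)
    (p := fun A o => o.elim true (fun i => decide (i < A.2.1.length))) ?_ ?_
  · fun_prop
  · refine NPC.Poly.optElim (o := fun q : Annih × Option ℕ => q.2) (g := fun _ => true)
      (h := fun q i => decide (i < q.1.2.1.length)) ?_ ?_ ?_
    · fun_prop
    · fun_prop
    · fun_prop

theorem inRange_of {A : Annih} (hA : IsPosition A) : InRange A A.2.2.length := by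
  intro i e he
  by_cases hi : i < A.2.1.length
  · rw [List.getD_eq_getElem _ _ hi] at he
    have h := hA.1 e (hA.2.2.1 _ (List.getElem_mem hi) e he)
    exact ⟨h.1, h.2.1⟩
  · rw [List.getD_eq_default _ _ (by omega)] at he
    simp at he

theorem start_forces {A : Annih} (hA : IsPosition A) (w : Bool) :
    Forces (Mv A) w (ANN.start A) ↔ Forces (fun P Q => Q ∈ mvs A P) w A.2.2 :=
  forces_iff (inRange_of hA) w

/-- the coded position -/
noncomputable def rd (x : List Bool) : Annih := (unbits Annih x).getD ([], [], [])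

theorem poly_rd : NPC.Poly rd :=
  Poly.optGetD (g := fun _ => ([], [], [])) (poly_unbits (α := Annih)) (NPC.Poly.const _)

theorem exptime_tag (t : ℕ) (ht : t ≤ 2) (neg : Bool) {q : Annih → Bool} (hq : NPC.Poly q) :
    InEXPB (lang (fun A : Annih => IsPosition A ∧ q A = true ∧
      (Acc ex suc A (t, A.2.2) ↔ neg = false))) := by
  have hb : NPC.Poly (fun x : List Bool => (unbits Annih x).isSome && (posB (rd x) && q (rd x))) :=
    NPC.Poly.and (NPC.Poly.isSome poly_unbits)
      (NPC.Poly.and (poly_posB.comp poly_rd) (hq.comp poly_rd))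
  have hst : NPC.Poly (fun A : Annih => ((t, A.2.2) : St)) := by fun_prop
  refine inEXPB_of_acc (ok := ok) mA_upoly poly_ex poly_suc hst
    poly_rd hb ?_ suc_ok ok_bits ok_length neg ?_
  · intro x hx
    rw [Bool.and_eq_true, Bool.and_eq_true, posB_iff] at hx
    exact ⟨ht, rfl, hx.2.1.2.2.2⟩
  · intro x
    rw [mem_lang_iff, Bool.and_eq_true, Bool.and_eq_true, posB_iff]
    constructor
    · rintro ⟨A, h1, h2, h2', h3⟩
      have h4 : rd x = A := by
        unfold rd
        rw [h1]
        rfl
      rw [h4, h1]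
      exact ⟨⟨rfl, h2, h2'⟩, h3⟩
    · rintro ⟨⟨h1, h2, h2'⟩, h3⟩
      obtain ⟨A, hA⟩ := Option.isSome_iff_exists.1 h1
      have h4 : rd x = A := by
        unfold rd
        rw [hA]
        rfl
      rw [h4] at h2 h2' h3
      exact ⟨A, hA, h2, h2', h3⟩

theorem lang_congr {α : Type} [TEnc α] {P Q : α → Prop} (h : ∀ a, P a ↔ Q a) :
    lang P = lang Q := by
  congr 1
  funext a
  exact propext (h a)

/-- The three outcomes. -/
theorem exp_of {W : Annih → Prop} (hW : W = MoverWins ∨ W = OtherWins ∨ W = Drawn)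
    {q : Annih → Bool} (hq : NPC.Poly q) :
    InEXPB (lang (fun A : Annih => IsPosition A ∧ q A = true ∧ W A)) := by
  rcases hW with rfl | rfl | rfl
  · rw [lang_congr (Q := fun A : Annih => IsPosition A ∧ q A = true ∧ (Acc ex suc A (1, A.2.2) ↔
      false = false)) fun A => and_congr_right fun hA => and_congr_right fun _ => ?_]
    · exact exptime_tag 1 (by norm_num) false hq
    · unfold MoverWins
      rw [start_forces hA, (acc_iff A A.2.2).2.1]
      simp
  · rw [lang_congr (Q := fun A : Annih => IsPosition A ∧ q A = true ∧ (Acc ex suc A (0, A.2.2) ↔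
      false = false)) fun A => and_congr_right fun hA => and_congr_right fun _ => ?_]
    · exact exptime_tag 0 (by norm_num) false hq
    · unfold OtherWins
      rw [start_forces hA, (acc_iff A A.2.2).1]
      simp
  · rw [lang_congr (Q := fun A : Annih => IsPosition A ∧ q A = true ∧ (Acc ex suc A (2, A.2.2) ↔
      true = false)) fun A => and_congr_right fun hA => and_congr_right fun _ => ?_]
    · exact exptime_tag 2 le_rfl true hq
    · unfold Drawn MoverWins OtherWins
      rw [start_forces hA, start_forces hA, (acc_iff A A.2.2).2.2]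
      simp only [Bool.true_eq_false, iff_false, not_or]
      tauto

/-! ### More token types -/

/-- additional token types which cannot use any edge -/
def pad (t : ℕ) (A : Annih) : Annih := (A.1, A.2.1 ++ List.replicate (t - A.2.1.length) [], A.2.2)

theorem pad_getD (t : ℕ) (A : Annih) (i : ℕ) : (pad t A).2.1.getD i [] = A.2.1.getD i [] := by
  unfold pad
  simp only
  by_cases hi : i < A.2.1.length
  · rw [List.getD_append _ _ _ _ hi]
  · rw [List.getD_append_right _ _ _ _ (by omega), List.getD_eq_default A.2.1 _ (by omega)]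
    by_cases h : i - A.2.1.length < t - A.2.1.length
    · rw [List.getD_eq_getElem _ _ (by simpa using h)]
      simp
    · rw [List.getD_eq_default _ _ (by simpa using h)]

theorem pad_mv (t : ℕ) (A : Annih) : Mv (pad t A) = Mv A := by
  unfold Mv
  simp only [pad_getD]

theorem pad_forces (t : ℕ) (A : Annih) (w : Bool) :
    Forces (Mv (pad t A)) w (ANN.start (pad t A)) ↔ Forces (Mv A) w (ANN.start A) := by
  rw [pad_mv]
  rfl

theorem pad_pos {t : ℕ} {A : Annih} (hA : IsPosition A) : IsPosition (pad t A) := by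
  obtain ⟨h1, h2, h3, h4⟩ := hA
  refine ⟨h1, ?_, ?_, ?_⟩
  · unfold pad
    simp only [List.length_append]
    omega
  · intro l hl e he
    unfold pad at hl
    simp only [List.mem_append, List.mem_replicate] at hl
    rcases hl with hl | ⟨_, rfl⟩
    · exact h3 l hl e he
    · simp at he
  · intro i hi
    have := h4 i hi
    unfold pad
    simp only [List.length_append]
    omega

theorem pad_length {t : ℕ} {A : Annih} (h : A.2.1.length ≤ t) : (pad t A).2.1.length = t := by
  unfold pad
  simp only [List.length_append, List.length_replicate]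
  omega

theorem poly_pad (t : ℕ) : NPC.Poly (pad t) := by
  unfold pad
  have h1 : NPC.Poly (fun A : Annih => t - A.2.1.length) := by fun_prop
  have h2 : NPC.Poly (fun A : Annih => List.replicate (t - A.2.1.length) ([] : List (ℕ × ℕ))) :=
    Pool.Agent.H623R2.PS.poly_replicate (UPoly.of_le h1 (UPoly.const t)
      (fun _ => Nat.sub_le _ _)) []
  fun_prop

open Pool.Agent.H820R2.SS in
/-- Hardness for every number of token types. -/
theorem hard_of {W : Annih → Prop} (hW : W = MoverWins ∨ W = OtherWins ∨ W = Drawn) {t : ℕ}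
    (ht : 2 ≤ t) {q : Annih → Bool} (hq : ∀ A : Annih, A.2.1.length = t → q A = true)
    {L : Set (List Bool)} (hL : InEXPTIME L) :
    Reduces L (lang (fun A : Annih => IsPosition A ∧ q A = true ∧ W A)) := by
  have hlen : ∀ c M, (pad t (inst c M)).2.1.length = t := fun c M => pad_length (by
    have : (inst c M).2.1.length = 2 := rfl
    omega)
  rcases hW with rfl | rfl | rfl
  · obtain ⟨f, h1, h2, h3⟩ := ARM578.exptime_arm (L := L) hL
    refine ⟨fun x => bits (pad t (inst 0 (f x))),
      PC.toPolyTime_bits ((poly_pad t).comp (poly_inst 0)) f h1, fun x => ?_⟩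
    rw [bits_mem_lang]
    have hp := pad_pos (t := t) (inst_isPosition 0 (f x))
    rw [and_iff_right hp, and_iff_right (hq _ (hlen _ _)), MoverWins, pad_forces,
      inst_forces (v0 := .G) rfl rfl rfl, h3 x, ARMAcc]
    exact (win_G (h2 x) _).symm
  · obtain ⟨f, h1, h2, h3⟩ := ARM578.exptime_arm (L := L) hL
    refine ⟨fun x => bits (pad t (inst 1 (f x))),
      PC.toPolyTime_bits ((poly_pad t).comp (poly_inst 1)) f h1, fun x => ?_⟩
    rw [bits_mem_lang]
    have hp := pad_pos (t := t) (inst_isPosition 1 (f x))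
    rw [and_iff_right hp, and_iff_right (hq _ (hlen _ _)), OtherWins, pad_forces,
      inst_forces (v0 := .I) rfl rfl rfl, h3 x, ARMAcc]
    exact (lose_I (h2 x) _).symm
  · obtain ⟨f, h1, h2, h3⟩ := ARM578.exptime_arm_compl (L := L) hL
    refine ⟨fun x => bits (pad t (inst 0 (f x))),
      PC.toPolyTime_bits ((poly_pad t).comp (poly_inst 0)) f h1, fun x => ?_⟩
    rw [bits_mem_lang]
    have hp := pad_pos (t := t) (inst_isPosition 0 (f x))
    rw [and_iff_right hp, and_iff_right (hq _ (hlen _ _)), Drawn, MoverWins, OtherWins,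
      pad_forces, pad_forces, inst_forces (v0 := .G) rfl rfl rfl,
      inst_forces (v0 := .G) rfl rfl rfl]
    have h4 := h3 x
    rw [ARMAcc, ← win_G (h2 x)] at h4
    rw [← not_iff_not, h4]
    constructor
    · intro h h'
      exact h'.1 h
    · intro h
      by_contra h'
      exact h ⟨h', not_lose_G _⟩

end Pool.Agent.Y669.EX.Ann
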